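import Pool.Agent.Pst.Dist

/-!
# Perfect state transfer over the whole diameter in graphs of polynomial size (MP_12e063_co)
-/

set_option autoImplicit false

open scoped Matrix

namespace Pool.Agent.Results.MP_12e063_co.Antipodal

/-- Perfect state transfer from `u` to `v` at time `t`: `exp(itA) e_u = γ e_v` for some complex
number `γ` of modulus 1, where `A` is the adjacency matrix of `G`. -/
def HasPST {n : ℕ} (G : SimpleGraph (Fin n)) [DecidableRel G.Adj] (u v : Fin n) (t : ℝ) : Prop :=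
  ∃ γ : ℂ, ‖γ‖ = 1 ∧
    (NormedSpace.exp ((Complex.I * (t : ℂ)) • G.adjMatrix ℂ)) *ᵥ (Pi.single u (1 : ℂ))
      = γ • Pi.single v (1 : ℂ)

/-- For every `g ≥ 2`, with `D = g ^ 2`, there is a connected simple graph of diameter exactly `D`
with at most `2 D ^ 5` vertices that has perfect state transfer, at time `π / (2 D)`, between two
vertices at distance `D`. -/
theorem result :
    ∀ g : ℕ, 2 ≤ g → ∃ (n : ℕ) (G : SimpleGraph (Fin n)) (_ : DecidableRel G.Adj) (u v : Fin n),
      G.Connected ∧ G.diam = g ^ 2 ∧ G.dist u v = g ^ 2 ∧ n ≤ 2 * (g ^ 2) ^ 5 ∧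
      HasPST G u v (Real.pi / (2 * (g : ℝ) ^ 2)) := by
  intro g hg
  obtain ⟨n, G, inst, u, v, h1, h2, h3, h4, h5⟩ := Pool.Agent.Pst.family_dist g hg
  exact ⟨n, G, inst, u, v, h1, h2, h3, h4, Complex.I ^ (g ^ 2), by simp, h5⟩

end Pool.Agent.Results.MP_12e063_co.Antipodal
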